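import Pool.Agent.H37.CTP.Stmts

/-!
# Row INT: `p = 2`, a central involution outside a subgroup of index `2`
-/

set_option autoImplicit false

namespace Pool.CND

open Finset

theorem int_sm_union {G : Type} [Fintype G] (b : G → ℤ) (S T V : Set G)
    (hV : ∀ g, g ∈ V ↔ g ∈ S ∨ g ∈ T) (hd : ∀ g, g ∈ S → g ∉ T) : sm b V = sm b S + sm b T := by
  classical
  unfold sm
  rw [← Finset.sum_union]
  · apply Finset.sum_congr _ (fun _ _ => rfl)
    ext g
    simp only [mem_filter, mem_univ, true_and, mem_union]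
    exact hV g
  · rw [Finset.disjoint_left]
    intro g hg
    simp only [mem_filter, mem_univ, true_and] at hg ⊢
    exact hd g hg

theorem int_idx {G : Type} [Group G] [Finite G] (H H₀ : Subgroup G) (hH : H₀ ≤ H)
    (hc : Nat.card H = 2 * Nat.card H₀) :
    ∀ x ∈ H, ∀ y ∈ H, (x * y ∈ H₀ ↔ (x ∈ H₀ ↔ y ∈ H₀)) := by
  intro x hx y hy
  have h1 : Nat.card (H₀.subgroupOf H) = Nat.card H₀ :=
    Nat.card_congr (Subgroup.subgroupOfEquivOfLe hH).toEquiv
  have h2 := Subgroup.card_mul_index (H₀.subgroupOf H)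
  have hpos : 0 < Nat.card H₀ := Nat.card_pos
  have h3 : (H₀.subgroupOf H).index = 2 := by
    rw [h1, hc, mul_comm] at h2
    exact Nat.eq_of_mul_eq_mul_right hpos h2
  have h4 := Subgroup.mul_mem_iff_of_index_two h3 (a := ⟨x, hx⟩) (b := ⟨y, hy⟩)
  simpa only [Subgroup.mem_subgroupOf, Subgroup.coe_mul] using h4

/-- row INT -/
theorem int_thm (hOD : S_OD2) (hHBP : S_HBP) (hUMW : S_UMW) (hSUB : S_SUB) : S_INT := by
  intro k L G _ _ _ _ _ P ρ I H H₀ d l z hch hinj hI hHI hH₀ hz hz0 hcH hbz hcI hl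
  obtain ⟨W, I', hW, -, -, -⟩ := hSUB k L G P ρ
  have hIW : I ≤ W := by
    intro g hg
    have h := hI g hg
    rw [← hW] at h
    exact h
  have hUW := hUMW k L G P ρ W hinj hW
  have hHW : HB 2 (fun g => P.b (ρ g)) W := hHBP 2 k L G P ρ W Nat.prime_two hch hinj hW
  obtain ⟨n, hn⟩ := hOD k L G P ρ H I d hch hinj hI hHI hcI
  clear hOD hHBP hUMW hSUB
  set b : G → ℤ := fun g => P.b (ρ g) with hb
  have hbz' : b z = l := hbz
  have hmul := int_idx H H₀ hH₀ hcH
  have hnorm : ∀ g ∈ H, ∀ n ∈ H₀, g * n * g⁻¹ ∈ H₀ := by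
    intro g hg n hn
    rw [hmul _ (H.mul_mem hg (hH₀ hn)) _ (H.inv_mem hg), hmul _ hg _ (hH₀ hn), inv_mem_iff]
    simp [hn]
  obtain ⟨B, hB, hBs⟩ := hHW H₀ H hH₀ (hHI.trans hIW) hcH hnorm
  have hs1 : sm b {x | z⁻¹ * x ∈ H₀} = Nat.card H₀ * B := hBs z hz hz0
  have hz1 : z ≠ 1 := fun h => hz0 (h ▸ H₀.one_mem)
  -- the values of `b` on the coset
  have hval : ∀ m ∈ H₀, m ≠ 1 → b (z * m) = b m := by
    intro m hm hm1
    have hzI : z ∈ I := hHI hz
    have hmI : m ∈ I := hHI (hH₀ hm)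
    have hzm1 : z * m ≠ 1 := by
      intro h
      apply hz0
      rw [eq_inv_of_mul_eq_one_left h]
      exact H₀.inv_mem hm
    have hzmI : z * m ∈ I := I.mul_mem hzI hmI
    apply le_antisymm
    · have h1 := hUW.mul z⁻¹ (hIW (I.inv_mem hzI)) (z * m) (hIW hzmI) (inv_ne_one.2 hz1) hzm1
        (by rwa [inv_mul_cancel_left])
      rw [inv_mul_cancel_left, hUW.inv z (hIW hzI) hz1, hbz', min_eq_right (hl.le _ hzmI hzm1)]
        at h1
      exact h1
    · have h1 := hUW.mul z (hIW hzI) m (hIW hmI) hz1 hm1 hzm1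
      rw [hbz', min_eq_right (hl.le _ hmI hm1)] at h1
      exact h1
  -- the coset sum
  have hcos : sm b {x | z⁻¹ * x ∈ H₀} = l + sm b {g | g ∈ H₀ ∧ g ≠ 1} := by
    classical
    unfold sm
    have e1 : ∑ g ∈ univ.filter (fun g => g ∈ {x | z⁻¹ * x ∈ H₀}), b g =
        ∑ m ∈ univ.filter (fun m => m ∈ H₀), b (z * m) := by
      symm
      apply Finset.sum_equiv (Equiv.mulLeft z)
      · intro i
        simp
      · intro i _
        rfl
    rw [e1, ← Finset.add_sum_erase (univ.filter (fun m => m ∈ H₀)) (fun m => b (z * m))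
      (a := 1) (by simp [H₀.one_mem])]
    rw [mul_one, hbz']
    congr 1
    apply Finset.sum_congr
    · ext m
      simp only [mem_erase, mem_filter, mem_univ, true_and, Set.mem_ofPred_eq]
      tauto
    · intro m hm
      simp only [mem_filter, mem_univ, true_and, Set.mem_ofPred_eq] at hm
      exact hval m hm.1 hm.2
  -- sum over `H`
  have hH1 : sm b {g | g ∈ H ∧ g ≠ 1} =
      sm b {g | g ∈ H₀ ∧ g ≠ 1} + sm b {x | z⁻¹ * x ∈ H₀} := by
    apply int_sm_union
    · intro g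
      simp only [Set.mem_ofPred_eq]
      constructor
      · rintro ⟨hg, hg1⟩
        by_cases hg0 : g ∈ H₀
        · exact Or.inl ⟨hg0, hg1⟩
        · right
          rw [hmul _ (H.inv_mem hz) _ hg, inv_mem_iff]
          tauto
      · rintro (⟨hg, hg1⟩ | hg)
        · exact ⟨hH₀ hg, hg1⟩
        · refine ⟨?_, ?_⟩
          · have := H.mul_mem hz (hH₀ hg)
            rwa [mul_inv_cancel_left] at this
          · rintro rfl
            apply hz0
            rw [mul_one, inv_mem_iff] at hg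
            exact hg
    · intro g hg hg'
      simp only [Set.mem_ofPred_eq] at hg hg'
      rw [hmul _ (H.inv_mem hz) _ (hH₀ hg.1), inv_mem_iff] at hg'
      exact hz0 (hg'.2 hg.1)
  -- sum over `I`
  have hI1 : sm b {g | g ∈ I ∧ g ≠ 1} =
      sm b {g | g ∈ H ∧ g ≠ 1} + sm b {g | g ∈ I ∧ g ∉ H} := by
    apply int_sm_union
    · intro g
      simp only [Set.mem_ofPred_eq]
      constructor
      · rintro ⟨hg, hg1⟩
        by_cases hg0 : g ∈ H
        · exact Or.inl ⟨hg0, hg1⟩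
        · exact Or.inr ⟨hg, hg0⟩
      · rintro (⟨hg, hg1⟩ | ⟨hg, hg0⟩)
        · exact ⟨hHI hg, hg1⟩
        · exact ⟨hg, fun h => hg0 (h ▸ H.one_mem)⟩
    · intro g hg hg'
      exact hg'.2 hg.1
  have hodd : ∃ m : ℤ, B = 2 * m + 1 := by
    have h : ¬ (2 : ℤ) ∣ B := by exact_mod_cast hB
    exact ⟨B / 2, by omega⟩
  obtain ⟨m, rfl⟩ := hodd
  have hcH' : (Nat.card H : ℤ) = 2 * Nat.card H₀ := by exact_mod_cast hcH
  have htot : l + sm b {g | g ∈ I ∧ g ≠ 1} = Nat.card H * (2 * (m + n + 1)) := by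
    have h1 : sm b {g | g ∈ H₀ ∧ g ≠ 1} = Nat.card H₀ * (2 * m + 1) - l := by
      rw [← hs1, hcos]
      ring
    rw [hI1, hH1, hs1, h1, hn, hcH']
    ring
  refine ⟨m + n + 1, ?_⟩
  have hq : (l : ℚ) + sm b {g | g ∈ I ∧ g ≠ 1} = Nat.card H * (2 * (m + n + 1)) := by
    exact_mod_cast htot
  have hcHpos : (Nat.card H : ℚ) ≠ 0 := by
    exact_mod_cast (Nat.card_pos (α := H)).ne'
  unfold U
  rw [hq, hcI]
  push_cast
  have h2 : (2 : ℚ) ^ d ≠ 0 := by positivity
  rw [pow_succ]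
  field_simp

end Pool.CND
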